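import Pool.Agent.Q60.D3G.StmC

/-!
# Project D3G, job G5 CMP: comparison of two systems with the same span
-/

namespace Q146.D3G

open Module Pool.Agent.W547.LD Pool.Agent.W547.LD.Comb Pool.Agent.Q60.D3G

/-- A linear form with the values `1` and `-1` at all sign vectors. -/
theorem signs {d : ℕ} (a : Fin d → ℚ)
    (h : ∀ p : Fin d → ℚ, (∀ i, p i = 1 ∨ p i = -1) → ∑ i, a i * p i = 1 ∨ ∑ i, a i * p i = -1) :
    ∃ i, (a i = 1 ∨ a i = -1) ∧ ∀ k, k ≠ i → a k = 0 := by
  classical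
  -- the signs of the coefficients
  let p : Fin d → ℚ := fun i => if 0 ≤ a i then 1 else -1
  have hp : ∀ i, p i = 1 ∨ p i = -1 := by
    intro i
    by_cases h1 : 0 ≤ a i
    · exact Or.inl (if_pos h1)
    · exact Or.inr (if_neg h1)
  have hpa : ∀ i, a i * p i = |a i| := by
    intro i
    by_cases h1 : 0 ≤ a i
    · rw [show p i = 1 from if_pos h1, abs_of_nonneg h1, mul_one]
    · rw [show p i = -1 from if_neg h1, abs_of_neg (not_le.1 h1)]
      ring
  have hsum : ∑ i, |a i| = 1 := by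
    have h1 := h p hp
    simp only [hpa] at h1
    rcases h1 with h1 | h1
    · exact h1
    · have h2 : 0 ≤ ∑ i, |a i| := Finset.sum_nonneg fun i _ => abs_nonneg _
      linarith
  have hval : ∀ i, a i = 0 ∨ a i = 1 ∨ a i = -1 := by
    intro i
    let q : Fin d → ℚ := Function.update p i (-p i)
    have hq : ∀ k, q k = 1 ∨ q k = -1 := by
      intro k
      by_cases hk : k = i
      · subst hk
        rw [show q k = -p k from Function.update_self _ _ _]
        rcases hp k with h1 | h1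
        · right
          rw [h1]
        · left
          rw [h1, neg_neg]
      · rw [show q k = p k from Function.update_of_ne hk _ _]
        exact hp k
    have h1 : ∑ k, a k * q k = ∑ k, a k * p k - 2 * |a i| := by
      rw [← Finset.add_sum_erase Finset.univ (fun k => a k * q k) (Finset.mem_univ i),
        ← Finset.add_sum_erase Finset.univ (fun k => a k * p k) (Finset.mem_univ i)]
      have h2 : ∑ k ∈ Finset.univ.erase i, a k * q k = ∑ k ∈ Finset.univ.erase i, a k * p k := by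
        refine Finset.sum_congr rfl fun k hk => ?_
        rw [show q k = p k from Function.update_of_ne (Finset.ne_of_mem_erase hk) _ _]
      have h3 : a i * q i = -|a i| := by
        rw [show q i = -p i from Function.update_self _ _ _, mul_neg, hpa]
      have h4 := hpa i
      rw [h2, h3, h4]
      ring
    have h2 : ∑ k, a k * p k = 1 := by
      rw [← hsum]
      exact Finset.sum_congr rfl fun k _ => hpa k
    have h3 := h q hq
    rw [h1, h2] at h3
    have h4 : |a i| = 0 ∨ |a i| = 1 := by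
      rcases h3 with h3 | h3
      · left
        linarith
      · right
        linarith
    rcases h4 with h4 | h4
    · exact Or.inl (abs_eq_zero.1 h4)
    · exact Or.inr ((abs_eq (by norm_num)).1 h4)
  obtain ⟨i, hi⟩ : ∃ i, a i ≠ 0 := by
    by_contra hcon
    push Not at hcon
    have h1 : ∑ i, |a i| = 0 := Finset.sum_eq_zero fun i _ => by rw [hcon i, abs_zero]
    rw [hsum] at h1
    norm_num at h1
  have hi1 : a i = 1 ∨ a i = -1 := (hval i).resolve_left hi
  refine ⟨i, hi1, fun k hk => ?_⟩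
  have h1 : |a i| = 1 := by
    rcases hi1 with h | h <;> rw [h] <;> norm_num
  have h2 := hsum
  rw [← Finset.add_sum_erase Finset.univ (fun k => |a k|) (Finset.mem_univ i)] at h2
  have h3 : ∑ k ∈ Finset.univ.erase i, |a k| = 0 := by
    rw [h1] at h2
    linarith
  have h4 := (Finset.sum_eq_zero_iff_of_nonneg (fun k _ => abs_nonneg (a k))).1 h3 k
    (Finset.mem_erase.2 ⟨hk, Finset.mem_univ _⟩)
  exact abs_eq_zero.1 h4

theorem cmp1 (G : Type) (d d' : ℕ) (t : Fin d → G → ℚ) (t' : Fin d' → G → ℚ) (hd : 0 < d')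
    (ht : FullT d t) (ht' : FullT d' t')
    (hspan : Submodule.span ℚ (Set.range t) = Submodule.span ℚ (Set.range t')) :
    ∃ i i', t' i' = t i ∨ t' i' = -t i := by
  have h1 : t' ⟨0, hd⟩ ∈ Submodule.span ℚ (Set.range t) := by
    rw [hspan]
    exact Submodule.subset_span ⟨_, rfl⟩
  obtain ⟨a, ha⟩ := (Submodule.mem_span_range_iff_exists_fun ℚ).1 h1
  have h2 : ∀ σ, t' ⟨0, hd⟩ σ = ∑ i, a i * t i σ := by
    intro σ
    rw [← ha, Finset.sum_apply]
    rfl
  obtain ⟨i, hi, hk⟩ := signs a (by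
    intro p hp
    obtain ⟨σ, hσ⟩ := ht.all p hp
    have h3 := h2 σ
    simp only [hσ] at h3
    rw [← h3]
    exact ht'.val _ σ)
  refine ⟨i, ⟨0, hd⟩, ?_⟩
  have h3 : ∀ σ, t' ⟨0, hd⟩ σ = a i * t i σ := by
    intro σ
    rw [h2 σ]
    refine Finset.sum_eq_single i (fun k _ hki => ?_) (fun h => absurd (Finset.mem_univ _) h)
    rw [hk k hki, zero_mul]
  rcases hi with hi | hi
  · left
    funext σ
    rw [h3 σ, hi, one_mul]
  · right
    funext σ
    rw [h3 σ, hi, Pi.neg_apply, neg_one_mul]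

theorem three_values (a : Fin 3 → ℚ) (h : ∀ i, a i = 1 / 3 ∨ a i = -(1 / 3) ∨ a i = 2 / 3 ∨
    a i = -(2 / 3)) (hs : ∑ i, a i = 0) :
    ∃ (i : Fin 3) (s : ℚ), (s = 1 ∨ s = -1) ∧ a i = s * (2 / 3) ∧
      ∀ k, k ≠ i → a k = -s * (1 / 3) := by
  rw [Fin.sum_univ_three] at hs
  have main : ∀ x y z : ℚ, (x = 1 / 3 ∨ x = -(1 / 3) ∨ x = 2 / 3 ∨ x = -(2 / 3)) →
      (y = 1 / 3 ∨ y = -(1 / 3) ∨ y = 2 / 3 ∨ y = -(2 / 3)) →
      (z = 1 / 3 ∨ z = -(1 / 3) ∨ z = 2 / 3 ∨ z = -(2 / 3)) → x + y + z = 0 →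
      (∃ s : ℚ, (s = 1 ∨ s = -1) ∧
        ((x = s * (2 / 3) ∧ y = -s * (1 / 3) ∧ z = -s * (1 / 3)) ∨
          (y = s * (2 / 3) ∧ x = -s * (1 / 3) ∧ z = -s * (1 / 3)) ∨
          (z = s * (2 / 3) ∧ x = -s * (1 / 3) ∧ y = -s * (1 / 3)))) := by
    intro x y z hx hy hz hxyz
    by_cases hpos : (x = 2 / 3 ∨ y = 2 / 3 ∨ z = 2 / 3)
    · refine ⟨1, Or.inl rfl, ?_⟩
      rcases hx with rfl | rfl | rfl | rfl <;> rcases hy with rfl | rfl | rfl | rfl <;>
        rcases hz with rfl | rfl | rfl | rfl <;>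
        first
          | (exfalso; norm_num at hxyz; done)
          | (exfalso; norm_num at hpos; done)
          | norm_num
    · refine ⟨-1, Or.inr rfl, ?_⟩
      rcases hx with rfl | rfl | rfl | rfl <;> rcases hy with rfl | rfl | rfl | rfl <;>
        rcases hz with rfl | rfl | rfl | rfl <;>
        first
          | (exfalso; norm_num at hxyz; done)
          | (exfalso; norm_num at hpos; done)
          | norm_num
  obtain ⟨s, hs1, hs2⟩ := main (a 0) (a 1) (a 2) (h 0) (h 1) (h 2) hs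
  rcases hs2 with ⟨h1, h2, h3⟩ | ⟨h1, h2, h3⟩ | ⟨h1, h2, h3⟩
  · refine ⟨0, s, hs1, h1, fun k hk => ?_⟩
    fin_cases k
    · exact absurd rfl hk
    · exact h2
    · exact h3
  · refine ⟨1, s, hs1, h1, fun k hk => ?_⟩
    fin_cases k
    · exact h2
    · exact absurd rfl hk
    · exact h3
  · refine ⟨2, s, hs1, h1, fun k hk => ?_⟩
    fin_cases k
    · exact h2
    · exact h3
    · exact absurd rfl hk

theorem cmp2 (G : Type) (χ χ' : G → ℚ) (D D' : G → Fin 3) (t t' : Fin 3 → G → ℚ) (a : Fin 3 → ℚ)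
    (ht : TriT χ D t) (ht' : TriT χ' D' t')
    (heq : t' 0 - (1 / 3 : ℚ) • χ' = ∑ i, a i • t i) (hs : ∑ i, a i = 0) :
    ∃ i, t' 0 = t i ∨ t' 0 = -t i := by
  -- the value at a point
  have key : ∀ σ, a (D σ) = χ σ * χ' σ * (if D' σ = 0 then 2 / 3 else -(1 / 3)) := by
    intro σ
    have h1 := congrFun heq σ
    rw [Finset.sum_apply] at h1
    simp only [Pi.sub_apply, Pi.smul_apply, smul_eq_mul] at h1
    have h2 : ∑ i, a i * t i σ = -2 * a (D σ) * χ σ := by
      have h3 : ∀ i, a i * t i σ = a i * χ σ + (if i = D σ then -2 * a i * χ σ else 0) := by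
        intro i
        rw [ht.eq i σ]
        by_cases h4 : D σ = i
        · rw [if_pos h4, if_pos h4.symm]
          ring
        · rw [if_neg h4, if_neg (fun h => h4 h.symm)]
          ring
      rw [Finset.sum_congr rfl (fun i _ => h3 i), Finset.sum_add_distrib, ← Finset.sum_mul, hs,
        zero_mul, zero_add, Finset.sum_ite_eq' Finset.univ (D σ), if_pos (Finset.mem_univ _)]
    rw [h2, ht'.eq 0 σ] at h1
    by_cases h4 : D' σ = 0
    · rw [if_pos h4] at h1 ⊢
      rcases ht.val σ with h5 | h5 <;> rcases ht'.val σ with h6 | h6 <;> rw [h5, h6] at h1 ⊢ <;>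
        linarith
    · rw [if_neg h4] at h1 ⊢
      rcases ht.val σ with h5 | h5 <;> rcases ht'.val σ with h6 | h6 <;> rw [h5, h6] at h1 ⊢ <;>
        linarith
  obtain ⟨i, s, hs1, hi, hk⟩ := three_values a (by
    intro i
    obtain ⟨σ, hσ⟩ := ht.surj i
    have h1 := key σ
    rw [hσ] at h1
    rw [h1]
    rcases ht.val σ with h5 | h5 <;> rcases ht'.val σ with h6 | h6 <;> rw [h5, h6] <;>
      split_ifs <;> norm_num) hs
  refine ⟨i, ?_⟩
  have h1 : ∀ σ, t' 0 σ = s * t i σ := by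
    intro σ
    have h2 := key σ
    rw [ht'.eq 0 σ, ht.eq i σ]
    by_cases h3 : D σ = i
    · rw [h3, hi] at h2
      rw [if_pos h3]
      by_cases h4 : D' σ = 0
      · rw [if_pos h4] at h2 ⊢
        rcases ht.val σ with h5 | h5 <;> rcases ht'.val σ with h6 | h6 <;>
          rw [h5, h6] at h2 ⊢ <;> linarith
      · exfalso
        rw [if_neg h4] at h2
        rcases ht.val σ with h5 | h5 <;> rcases ht'.val σ with h6 | h6 <;>
          rcases hs1 with h7 | h7 <;> rw [h5, h6, h7] at h2 <;> norm_num at h2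
    · rw [hk _ h3] at h2
      rw [if_neg h3]
      by_cases h4 : D' σ = 0
      · exfalso
        rw [if_pos h4] at h2
        rcases ht.val σ with h5 | h5 <;> rcases ht'.val σ with h6 | h6 <;>
          rcases hs1 with h7 | h7 <;> rw [h5, h6, h7] at h2 <;> norm_num at h2
      · rw [if_neg h4] at h2 ⊢
        rcases ht.val σ with h5 | h5 <;> rcases ht'.val σ with h6 | h6 <;>
          rw [h5, h6] at h2 ⊢ <;> linarith
  rcases hs1 with h2 | h2
  · left
    funext σ
    rw [h1 σ, h2, one_mul]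
  · right
    funext σ
    rw [h1 σ, h2, Pi.neg_apply, neg_one_mul]

theorem cmp3 (G : Type) (χ' : G → ℚ) (D' : G → Fin 3) (t : Fin 2 → G → ℚ) (t' : Fin 3 → G → ℚ)
    (ht : FullT 2 t) (ht' : TriT χ' D' t') :
    ¬ ∀ k, t' k - (1 / 3 : ℚ) • χ' ∈ Submodule.span ℚ (Set.range t) := by
  intro hcon
  have h1 : ∀ k, ∃ a b : ℚ, ∀ σ, t' k σ - 1 / 3 * χ' σ = a * t 0 σ + b * t 1 σ := by
    intro k
    obtain ⟨a, ha⟩ := (Submodule.mem_span_range_iff_exists_fun ℚ).1 (hcon k)
    refine ⟨a 0, a 1, fun σ => ?_⟩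
    have h2 := congrFun ha σ
    rw [Fin.sum_univ_two] at h2
    exact h2.symm
  choose a b hab using h1
  have hpt : ∀ x y : ℚ, (x = 1 ∨ x = -1) → (y = 1 ∨ y = -1) → ∃ σ, t 0 σ = x ∧ t 1 σ = y := by
    intro x y hx hy
    obtain ⟨σ, hσ⟩ := ht.all ![x, y] (by
      intro i
      fin_cases i
      · exact hx
      · exact hy)
    exact ⟨σ, hσ 0, hσ 1⟩
  -- the coefficients
  have hodd : ∀ k, a k = 1 ∨ a k = -1 ∨ a k = 1 / 3 ∨ a k = -(1 / 3) := by
    intro k
    obtain ⟨σ, hσ⟩ := ht'.surj k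
    obtain ⟨σ', hσ'⟩ := ht'.surj (k + 1)
    have hne : D' σ' ≠ k := by
      rw [hσ']
      intro h
      revert h
      fin_cases k <;> decide
    have e1 := hab k σ
    have e2 := hab k σ'
    rw [ht'.eq k σ, if_pos hσ] at e1
    rw [ht'.eq k σ', if_neg hne] at e2
    rcases ht'.val σ with h2 | h2 <;> rcases ht'.val σ' with h3 | h3 <;>
      rcases ht.val 0 σ with h4 | h4 <;> rcases ht.val 1 σ with h5 | h5 <;>
      rcases ht.val 0 σ' with h6 | h6 <;> rcases ht.val 1 σ' with h7 | h7 <;>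
      rw [h2, h4, h5] at e1 <;> rw [h3, h6, h7] at e2 <;>
      first
        | (exfalso; linarith)
        | (left; linarith)
        | (right; left; linarith)
        | (right; right; left; linarith)
        | (right; right; right; linarith)
  -- the sum
  have hsum : ∀ σ, ∑ k, t' k σ = χ' σ := by
    intro σ
    have h2 : ∀ k, t' k σ = χ' σ + (if k = D' σ then -2 * χ' σ else 0) := by
      intro k
      rw [ht'.eq k σ]
      by_cases h4 : D' σ = k
      · rw [if_pos h4, if_pos h4.symm]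
        ring
      · rw [if_neg h4, if_neg (fun h => h4 h.symm)]
        ring
    rw [Finset.sum_congr rfl (fun k _ => h2 k), Finset.sum_add_distrib, Finset.sum_const,
      Finset.sum_ite_eq' Finset.univ (D' σ), if_pos (Finset.mem_univ _), Finset.card_univ,
      Fintype.card_fin, nsmul_eq_mul]
    push_cast
    ring
  have hrel : ∀ σ, (a 0 + a 1 + a 2) * t 0 σ + (b 0 + b 1 + b 2) * t 1 σ = 0 := by
    intro σ
    have h2 := hsum σ
    rw [Fin.sum_univ_three] at h2
    have e0 := hab 0 σ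
    have e1 := hab 1 σ
    have e2 := hab 2 σ
    linarith
  obtain ⟨σ, hσ0, hσ1⟩ := hpt 1 1 (Or.inl rfl) (Or.inl rfl)
  obtain ⟨σ', hσ'0, hσ'1⟩ := hpt 1 (-1) (Or.inl rfl) (Or.inr rfl)
  have e1 := hrel σ
  have e2 := hrel σ'
  rw [hσ0, hσ1] at e1
  rw [hσ'0, hσ'1] at e2
  have e3 : a 0 + a 1 + a 2 = 0 := by linarith
  rcases hodd 0 with h0 | h0 | h0 | h0 <;> rcases hodd 1 with h1 | h1 | h1 | h1 <;>
    rcases hodd 2 with h2 | h2 | h2 | h2 <;> rw [h0, h1, h2] at e3 <;> norm_num at e3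

/-- JOB G5 CMP. -/
theorem cmp : S_cmp :=
  ⟨fun G d d' t t' hd ht ht' hspan => cmp1 G d d' t t' hd ht ht' hspan,
    fun G χ χ' D D' t t' a ht ht' heq hs => cmp2 G χ χ' D D' t t' a ht ht' heq hs,
    fun G χ' D' t t' ht ht' => cmp3 G χ' D' t t' ht ht'⟩

end Q146.D3G
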