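import Pool.Agent.Q60.D3G.StmC

/-!
# Project D3G, job G2 IRR: stable spaces of dimension at most three are irreducible
-/

namespace Q146.D3G

open Module Pool.Agent.W547.LD Pool.Agent.W547.LD.Comb Pool.Agent.Q60.D3G

section

variable {G : Type} [Group G] [Fintype G]

/-- The scalar product as a bilinear form. -/
noncomputable def dotB : LinearMap.BilinForm ℚ (G → ℚ) :=
  LinearMap.mk₂ ℚ dot (fun a b c => dot_add a b c) (fun q a b => dot_smul q a b)
    (fun a b c => by rw [dot_comm, dot_add, dot_comm b, dot_comm c])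
    (fun q a b => by rw [dot_comm, dot_smul, dot_comm b]; rfl)

theorem dotB_apply (F F' : G → ℚ) : dotB F F' = dot F F' := rfl

theorem dotB_refl : (dotB (G := G)).IsRefl := fun x y h => by
  rw [dotB_apply] at h ⊢
  rw [dot_comm, h]

theorem isCompl_orth (W : Submodule ℚ (G → ℚ)) : IsCompl W (dotB.orthogonal W) := by
  rw [LinearMap.BilinForm.isCompl_orthogonal_iff_disjoint dotB_refl, Submodule.disjoint_def]
  intro x hx hx'
  exact dot_self (hx' x hx)

end

/-- JOB G2 IRR. -/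
theorem irr (h1 : S_line) : S_irr := by
  intro G _ _ c hc V hodd hst hQQ hdim W hWV hWst
  have hone : ∀ U ≤ V, (∀ g, ∀ F ∈ U, rtr g F ∈ U) → finrank ℚ U ≠ 1 := by
    intro U hUV hUst h
    obtain ⟨F, hF0, hF⟩ := finrank_eq_one_iff'.1 h
    have hFV : (F : G → ℚ) ∈ V := hUV F.2
    have h2 : (F : G → ℚ) ∈ QQ c := by
      refine h1 G c hc F (hodd F hFV) fun g => ?_
      obtain ⟨a, ha⟩ := hF ⟨rtr g F, hUst g F F.2⟩
      exact ⟨a, (congrArg Subtype.val ha).symm⟩
    exact hF0 (Subtype.ext (hQQ F hFV h2))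
  by_cases hW : W = ⊥
  · exact Or.inl hW
  by_cases hW' : W = V
  · exact Or.inr hW'
  exfalso
  have h2 : finrank ℚ W ≠ 0 := fun h => hW (Submodule.finrank_eq_zero.1 h)
  have h3 : finrank ℚ W ≠ 1 := hone W hWV hWst
  have h4 : finrank ℚ W < finrank ℚ V := Submodule.finrank_lt_finrank_of_lt (lt_of_le_of_ne hWV hW')
  have hc1 := isCompl_orth W
  have h5 : W ⊔ (dotB.orthogonal W ⊓ V) = V := by
    rw [← sup_inf_assoc_of_le _ hWV, hc1.sup_eq_top, top_inf_eq]
  have h6 : W ⊓ (dotB.orthogonal W ⊓ V) = ⊥ := by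
    rw [← inf_assoc, hc1.inf_eq_bot, bot_inf_eq]
  have h7 := Submodule.finrank_sup_add_finrank_inf_eq W (dotB.orthogonal W ⊓ V)
  rw [h5, h6, finrank_bot] at h7
  refine hone (dotB.orthogonal W ⊓ V) inf_le_right ?_ (by omega)
  rintro g F ⟨hF1, hF2⟩
  refine ⟨fun n hn => ?_, hst g F hF2⟩
  have h8 : dot (rtr g⁻¹ n) F = 0 := hF1 _ (hWst g⁻¹ n hn)
  have h9 := dot_rtr g (rtr g⁻¹ n) F
  rw [rtr_rtr, mul_inv_cancel, rtr_one, h8] at h9
  exact h9

end Q146.D3G
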